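import Pool.Agent.H61.OT.Base

/-!
# (BM) the weights are close to the Moebius function
-/

set_option autoImplicit false

open Finset Real

namespace Pool.Agent.H61.OT

open Pool.Agent.H88.OT
open Pool.Agent.H28.MZ (dv Mol)

theorem fb_not_sf (q Y h : ℕ) (hh : ¬ Squarefree h) : fb q Y h = 0 := by
  classical
  unfold fb
  rw [Finset.sum_eq_zero, mul_zero]
  intro d hd
  rw [Finset.mem_filter, mem_SF] at hd
  exact absurd (hd.1.2.1.squarefree_of_dvd hd.2) hh

theorem fb_large (q Y h : ℕ) (hh : Y < h) : fb q Y h = 0 := by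
  classical
  unfold fb
  rw [Finset.sum_eq_zero, mul_zero]
  intro d hd
  rw [Finset.mem_filter, mem_SF] at hd
  have := Nat.le_of_dvd (by omega) hd.2
  omega

open scoped Classical in
/-- `G_h` -/
noncomputable def Gh (q Y h : ℕ) : ℝ :=
  ∑ s ∈ (SF q Y).filter (fun s => s * h ≤ Y ∧ Nat.Coprime s h), 1 / (Nat.totient s : ℝ)

theorem Gh_nonneg (q Y h : ℕ) : 0 ≤ Gh q Y h := Finset.sum_nonneg fun s _ => phi_inv_nonneg s

open scoped Classical in
/-- the formula for the weights -/
theorem fb_eq (q Y h : ℕ) (hY : 1 ≤ Y) (hh : Squarefree h) (hq : Nat.Coprime h q) :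
    fb q Y h = (ArithmeticFunction.moebius h : ℝ) *
      ((h : ℝ) / Nat.totient h * Gh q Y h / fG q Y) := by
  have h1 : 1 ≤ h := Nat.one_le_iff_ne_zero.2 hh.ne_zero
  have hG := fG_pos (q := q) hY
  have hp := phi_pos h1
  unfold fb Gh
  have h2 : ∑ d ∈ (SF q Y).filter (fun d => h ∣ d),
      (ArithmeticFunction.moebius (d / h) : ℝ) * fy q Y d =
      ∑ s ∈ (SF q Y).filter (fun s => s * h ≤ Y ∧ Nat.Coprime s h),
        (ArithmeticFunction.moebius h : ℝ) * (1 / (Nat.totient h : ℝ)) * (1 / fG q Y) *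
          (1 / (Nat.totient s : ℝ)) := by
    symm
    refine Finset.sum_bij' (fun s _ => s * h) (fun d _ => d / h) ?_ ?_ ?_ ?_ ?_
    · intro s hs
      rw [Finset.mem_filter, mem_SF] at hs
      rw [Finset.mem_filter, mem_SF]
      refine ⟨⟨⟨Nat.one_le_iff_ne_zero.2 (Nat.mul_ne_zero (by omega) (by omega)), hs.2.1⟩, ?_, ?_⟩,
        dvd_mul_left _ _⟩
      · exact (Nat.squarefree_mul hs.2.2).2 ⟨hs.1.2.1, hh⟩
      · exact Nat.Coprime.mul_left hs.1.2.2 hq
    · intro d hd
      rw [Finset.mem_filter, mem_SF] at hd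
      obtain ⟨⟨⟨hd1, hd2⟩, hd3, hd4⟩, m, rfl⟩ := hd
      rw [Nat.mul_div_cancel_left _ (by omega)]
      have hm : m ≠ 0 := by
        rintro rfl
        simp at hd1
      have hc := Nat.coprime_of_squarefree_mul hd3
      rw [Finset.mem_filter, mem_SF]
      refine ⟨⟨⟨Nat.one_le_iff_ne_zero.2 hm, ?_⟩, hd3.of_mul_right, ?_⟩, ?_, hc.symm⟩
      · exact (Nat.le_mul_of_pos_left m (by omega)).trans hd2
      · exact Nat.Coprime.coprime_mul_left hd4
      · rw [mul_comm]
        exact hd2
    · intro s hs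
      exact Nat.mul_div_cancel _ (by omega)
    · intro d hd
      rw [Finset.mem_filter] at hd
      exact Nat.div_mul_cancel hd.2
    · intro s hs
      rw [Finset.mem_filter, mem_SF] at hs
      have hmem : s * h ∈ SF q Y := by
        rw [mem_SF]
        refine ⟨⟨Nat.one_le_iff_ne_zero.2 (Nat.mul_ne_zero (by omega) (by omega)), hs.2.1⟩, ?_, ?_⟩
        · exact (Nat.squarefree_mul hs.2.2).2 ⟨hs.1.2.1, hh⟩
        · exact Nat.Coprime.mul_left hs.1.2.2 hq
      have hps := phi_pos hs.1.1.1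
      rw [Nat.mul_div_cancel _ (by omega)]
      unfold fy
      rw [if_pos hmem, ArithmeticFunction.isMultiplicative_moebius.map_mul_of_coprime hs.2.2,
        Nat.totient_mul hs.2.2]
      have hmu : (ArithmeticFunction.moebius s : ℝ) * (ArithmeticFunction.moebius s : ℝ) = 1 := by
        have := ArithmeticFunction.moebius_sq_eq_one_of_squarefree hs.1.2.1
        rw [← sq]
        exact_mod_cast this
      push_cast
      have e : (ArithmeticFunction.moebius s : ℝ) *
          ((ArithmeticFunction.moebius s : ℝ) * (ArithmeticFunction.moebius h : ℝ) /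
            ((Nat.totient s : ℝ) * (Nat.totient h : ℝ) * fG q Y)) =
          ((ArithmeticFunction.moebius s : ℝ) * (ArithmeticFunction.moebius s : ℝ)) *
          ((ArithmeticFunction.moebius h : ℝ) /
            ((Nat.totient s : ℝ) * (Nat.totient h : ℝ) * fG q Y)) := by ring
      rw [e, hmu, one_mul]
      field_simp
  rw [h2, ← Finset.mul_sum]
  field_simp

open scoped Classical in
/-- upper bound for `G` -/
theorem G_le (q Y h : ℕ) (hh : Squarefree h) :
    fG q Y ≤ (h : ℝ) / Nat.totient h *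
      ∑ s ∈ (SF q Y).filter (fun s => Nat.Coprime s h), 1 / (Nat.totient s : ℝ) := by
  have h0 : h ≠ 0 := hh.ne_zero
  rw [← sum_iphi hh, Finset.sum_mul_sum, ← Finset.sum_product']
  unfold fG
  have hinj : Set.InjOn (fun d : ℕ => (Nat.gcd d h, d / Nat.gcd d h)) (SF q Y : Set ℕ) := by
    intro d _ d' _ hdd
    simp only [Prod.mk.injEq] at hdd
    have e1 := Nat.mul_div_cancel' (Nat.gcd_dvd_left d h)
    have e2 := Nat.mul_div_cancel' (Nat.gcd_dvd_left d' h)
    rw [hdd.1] at e1
    rw [hdd.1] at hdd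
    rw [hdd.2] at e1
    exact e1.symm.trans e2
  have hcop : ∀ d ∈ SF q Y, Nat.Coprime (Nat.gcd d h) (d / Nat.gcd d h) := by
    intro d hd
    rw [mem_SF] at hd
    have e1 := Nat.mul_div_cancel' (Nat.gcd_dvd_left d h)
    have h3 := hd.2.1
    rw [← e1] at h3
    exact Nat.coprime_of_squarefree_mul h3
  have h1 : ∑ d ∈ SF q Y, 1 / (Nat.totient d : ℝ) =
      ∑ x ∈ (SF q Y).image (fun d : ℕ => (Nat.gcd d h, d / Nat.gcd d h)),
        1 / (Nat.totient x.1 : ℝ) * (1 / (Nat.totient x.2 : ℝ)) := by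
    rw [Finset.sum_image hinj]
    refine Finset.sum_congr rfl fun d hd => ?_
    have e1 := Nat.mul_div_cancel' (Nat.gcd_dvd_left d h)
    have e2 := Nat.totient_mul (hcop d hd)
    rw [e1] at e2
    simp only
    rw [e2]
    push_cast
    rw [one_div_mul_one_div]
  rw [h1]
  refine Finset.sum_le_sum_of_subset_of_nonneg ?_ fun x _ _ =>
    mul_nonneg (phi_inv_nonneg _) (phi_inv_nonneg _)
  intro x hx
  rw [Finset.mem_image] at hx
  obtain ⟨d, hd, rfl⟩ := hx
  have hc := hcop d hd
  rw [mem_SF] at hd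
  have hg0 : 0 < Nat.gcd d h := Nat.gcd_pos_of_pos_left _ (by omega)
  have e1 := Nat.mul_div_cancel' (Nat.gcd_dvd_left d h)
  rw [Finset.mem_product, Nat.mem_divisors, Finset.mem_filter, mem_SF]
  refine ⟨⟨Nat.gcd_dvd_right d h, h0⟩, ⟨⟨?_, ?_⟩, ?_, ?_⟩, ?_⟩
  · exact Nat.div_pos (Nat.le_of_dvd (by omega) (Nat.gcd_dvd_left d h)) hg0
  · exact (Nat.div_le_self _ _).trans hd.1.2
  · exact hd.2.1.squarefree_of_dvd (Nat.div_dvd_of_dvd (Nat.gcd_dvd_left d h))
  · exact hd.2.2.coprime_dvd_left (Nat.div_dvd_of_dvd (Nat.gcd_dvd_left d h))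
  · change Nat.Coprime (d / Nat.gcd d h) h
    rw [Nat.coprime_iff_gcd_eq_one] at hc ⊢
    have h5 : Nat.gcd (d / Nat.gcd d h) h ∣ Nat.gcd d h :=
      Nat.dvd_gcd ((Nat.gcd_dvd_left _ _).trans (Nat.div_dvd_of_dvd (Nat.gcd_dvd_left d h)))
        (Nat.gcd_dvd_right _ _)
    have h6 : Nat.gcd (d / Nat.gcd d h) h ∣ Nat.gcd (Nat.gcd d h) (d / Nat.gcd d h) :=
      Nat.dvd_gcd h5 (Nat.gcd_dvd_left _ _)
    rw [hc] at h6
    exact Nat.dvd_one.1 h6

open scoped Classical in
theorem G_split (q Y h : ℕ) :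
    ∑ s ∈ (SF q Y).filter (fun s => Nat.Coprime s h), 1 / (Nat.totient s : ℝ) ≤
      Gh q Y h + ∑ s ∈ (SF q Y).filter (fun s => ¬ s * h ≤ Y), 1 / (Nat.totient s : ℝ) := by
  unfold Gh
  rw [← Finset.sum_filter_add_sum_filter_not ((SF q Y).filter (fun s => Nat.Coprime s h))
    (fun s => s * h ≤ Y)]
  refine add_le_add ?_ ?_
  · refine Finset.sum_le_sum_of_subset_of_nonneg ?_ fun s _ _ => phi_inv_nonneg s
    intro s hs
    simp only [Finset.mem_filter] at hs ⊢
    exact ⟨hs.1.1, hs.2, hs.1.2⟩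
  · refine Finset.sum_le_sum_of_subset_of_nonneg ?_ fun s _ _ => phi_inv_nonneg s
    intro s hs
    simp only [Finset.mem_filter] at hs ⊢
    exact ⟨hs.1.1, hs.2⟩

theorem abs_mu_le (n : ℕ) : |(ArithmeticFunction.moebius n : ℝ)| ≤ 1 := by
  have h := ArithmeticFunction.abs_moebius_le_one (n := n)
  exact_mod_cast h

theorem pf_BM (hSB : T_SB) (hGB : T_GB) : T_BM := by
  classical
  intro q hq
  obtain ⟨C, hC, hgap⟩ := gap hGB
  obtain ⟨c, hc, hG⟩ := G_ge hGB q hq
  refine ⟨1 + 2 * C / c, by positivity, fun Y h hY hh hcop => ?_⟩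
  have hlY := log_pos_of hY
  have hlh := log_nn h
  have hY1 : 1 ≤ Y := by omega
  have hGpos := fG_pos (q := q) hY1
  by_cases hsf : Squarefree h
  · by_cases hle : h ≤ Y
    · rw [fb_eq q Y h hY1 hsf hcop]
      set B := (h : ℝ) / Nat.totient h * Gh q Y h / fG q Y with hB
      have hmu : |(ArithmeticFunction.moebius h : ℝ)| = 1 := by
        have := ArithmeticFunction.abs_moebius_eq_one_of_squarefree hsf
        exact_mod_cast this
      have hmol := (hSB q Y hq hY1).1.le h
      rw [fb_eq q Y h hY1 hsf hcop, ← hB, abs_mul, hmu, one_mul] at hmol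
      have hphi := phi_pos hh
      have hh0 : (0 : ℝ) < h := by exact_mod_cast hh
      have hB0 : 0 ≤ B := div_nonneg (mul_nonneg (by positivity) (Gh_nonneg q Y h)) hGpos.le
      rw [abs_of_nonneg hB0] at hmol
      have e : (ArithmeticFunction.moebius h : ℝ) * B - (ArithmeticFunction.moebius h : ℝ) =
          (ArithmeticFunction.moebius h : ℝ) * (B - 1) := by ring
      rw [e, abs_mul, hmu, one_mul, abs_of_nonpos (by linarith)]
      have h1 := G_le q Y h hsf
      have h2 := G_split q Y h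
      have h3 := hgap q Y h hY1 hh
      have h4 : fG q Y ≤ (h : ℝ) / Nat.totient h * Gh q Y h +
          (h : ℝ) / Nat.totient h * (C * (1 + Real.log h)) := by
        refine h1.trans ?_
        rw [← mul_add]
        exact mul_le_mul_of_nonneg_left (by linarith) (by positivity)
      have h5 : 1 - B ≤ (h : ℝ) / Nat.totient h * (C * (1 + Real.log h)) / fG q Y := by
        rw [hB, le_div_iff₀ hGpos, sub_mul, div_mul_cancel₀ _ hGpos.ne', one_mul]
        linarith
      have h6 : (h : ℝ) / Nat.totient h * (C * (1 + Real.log h)) / fG q Y ≤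
          2 * (1 + Real.log h) * (C * (1 + Real.log h)) / (c * Real.log Y) := by
        refine div_le_div₀ (by positivity) ?_ (by positivity) (hG Y hY1)
        exact mul_le_mul_of_nonneg_right (div_phi_le h hh) (by positivity)
      have h7 : 2 * (1 + Real.log h) * (C * (1 + Real.log h)) / (c * Real.log Y) =
          (2 * C / c) * (1 + Real.log h) ^ 2 / Real.log Y := by
        field_simp
      have h8 : (2 * C / c) * (1 + Real.log h) ^ 2 / Real.log Y ≤
          (1 + 2 * C / c) * (1 + Real.log h) ^ 2 / Real.log Y := by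
        refine div_le_div_of_nonneg_right ?_ (by linarith)
        exact mul_le_mul_of_nonneg_right (by linarith) (by positivity)
      linarith
    · rw [fb_large q Y h (by omega), zero_sub, abs_neg]
      have h1 : Real.log Y ≤ Real.log h :=
        Real.log_le_log (by exact_mod_cast (by omega : 0 < Y)) (by exact_mod_cast (by omega : Y ≤ h))
      have h2 : (1 : ℝ) ≤ (1 + Real.log h) ^ 2 / Real.log Y := by
        rw [le_div_iff₀ (by linarith)]
        nlinarith
      have h3 : (1 : ℝ) ≤ (1 + 2 * C / c) * ((1 + Real.log h) ^ 2 / Real.log Y) := by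
        have : 0 ≤ 2 * C / c := by positivity
        nlinarith
      rw [mul_div_assoc]
      exact (abs_mu_le h).trans h3
  · rw [fb_not_sf q Y h hsf, ArithmeticFunction.moebius_eq_zero_of_not_squarefree hsf]
    simp only [Int.cast_zero, sub_zero, abs_zero]
    positivity

end Pool.Agent.H61.OT
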