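import Pool.Agent.H88.OT.Targets

/-!
# Selberg's weights: common lemmas
-/

set_option autoImplicit false

open Finset Real

namespace Pool.Agent.H61.OT

open Pool.Agent.H88.OT
open Pool.Agent.H28.MZ (dv)

theorem mem_SF {q Y d : ℕ} : d ∈ SF q Y ↔ (1 ≤ d ∧ d ≤ Y) ∧ Squarefree d ∧ Nat.Coprime d q := by
  classical
  unfold SF
  rw [Finset.mem_filter, Finset.mem_Icc]

theorem phi_pos {d : ℕ} (h : 1 ≤ d) : (0 : ℝ) < Nat.totient d := by
  exact_mod_cast Nat.totient_pos.2 h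

theorem phi_inv_nonneg (d : ℕ) : (0 : ℝ) ≤ 1 / (Nat.totient d : ℝ) := by positivity

theorem one_mem_SF {q Y : ℕ} (hY : 1 ≤ Y) : 1 ∈ SF q Y :=
  mem_SF.2 ⟨⟨le_rfl, hY⟩, squarefree_one, Nat.coprime_one_left q⟩

theorem fG_ge_one {q Y : ℕ} (hY : 1 ≤ Y) : 1 ≤ fG q Y := by
  unfold fG
  have h := Finset.single_le_sum (f := fun d => 1 / (Nat.totient d : ℝ))
    (fun d _ => phi_inv_nonneg d) (one_mem_SF (q := q) hY)
  simpa using h

theorem fG_pos {q Y : ℕ} (hY : 1 ≤ Y) : 0 < fG q Y := lt_of_lt_of_le one_pos (fG_ge_one hY)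

/-- the product formula for `n/φ(n)` -/
theorem div_phi (n : ℕ) (hn : 1 ≤ n) :
    (n : ℝ) / Nat.totient n = ∏ p ∈ n.primeFactors, ((p : ℝ) / ((p : ℝ) - 1)) := by
  have h := Nat.totient_mul_prod_primeFactors n
  have h1 : (Nat.totient n : ℝ) * ∏ p ∈ n.primeFactors, (p : ℝ) =
      n * ∏ p ∈ n.primeFactors, ((p : ℝ) - 1) := by
    have h2 : ∀ p ∈ n.primeFactors, ((p : ℝ) - 1) = ((p - 1 : ℕ) : ℝ) := by
      intro p hp
      rw [Nat.cast_sub (Nat.prime_of_mem_primeFactors hp).one_le, Nat.cast_one]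
    rw [Finset.prod_congr rfl h2]
    have h4 := congrArg (fun m : ℕ => (m : ℝ)) h
    simp only [Nat.cast_mul, Nat.cast_prod] at h4
    exact h4
  have h3 : (0 : ℝ) < ∏ p ∈ n.primeFactors, ((p : ℝ) - 1) := by
    refine Finset.prod_pos fun p hp => ?_
    have : (2 : ℝ) ≤ p := by exact_mod_cast (Nat.prime_of_mem_primeFactors hp).two_le
    linarith
  rw [Finset.prod_div_distrib, div_eq_div_iff (phi_pos hn).ne' h3.ne']
  linarith

theorem prod_le_card (s : Finset ℕ) (hs : ∀ p ∈ s, 2 ≤ p) :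
    ∏ p ∈ s, ((p : ℝ) / ((p : ℝ) - 1)) ≤ (s.card : ℝ) + 1 := by
  induction s using Finset.induction_on_max with
  | empty => simp
  | insert a s ha ih =>
    have hna : a ∉ s := fun h => lt_irrefl _ (ha a h)
    rw [Finset.prod_insert hna, Finset.card_insert_of_notMem hna]
    have h1 := ih fun p hp => hs p (Finset.mem_insert_of_mem hp)
    have h2 : s.card + 2 ≤ a := by
      have h3 : s ⊆ Finset.Ico 2 a := fun p hp =>
        Finset.mem_Ico.2 ⟨hs p (Finset.mem_insert_of_mem hp), ha p hp⟩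
      have h4 := Finset.card_le_card h3
      rw [Nat.card_Ico] at h4
      have h5 := hs a (Finset.mem_insert_self a s)
      omega
    have h2' : (s.card : ℝ) + 2 ≤ a := by exact_mod_cast h2
    have hc : (0 : ℝ) ≤ s.card := Nat.cast_nonneg _
    have h6 : (a : ℝ) / ((a : ℝ) - 1) ≤ ((s.card : ℝ) + 2) / ((s.card : ℝ) + 1) := by
      rw [div_le_div_iff₀ (by linarith) (by linarith)]
      nlinarith
    have h7 : 0 ≤ ∏ p ∈ s, ((p : ℝ) / ((p : ℝ) - 1)) := by
      refine Finset.prod_nonneg fun p hp => ?_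
      have : (2 : ℝ) ≤ p := by exact_mod_cast hs p (Finset.mem_insert_of_mem hp)
      exact div_nonneg (by linarith) (by linarith)
    calc (a : ℝ) / ((a : ℝ) - 1) * ∏ p ∈ s, ((p : ℝ) / ((p : ℝ) - 1))
        ≤ ((s.card : ℝ) + 2) / ((s.card : ℝ) + 1) * ((s.card : ℝ) + 1) :=
          mul_le_mul h6 h1 h7 (by positivity)
      _ = ((s.card + 1 : ℕ) : ℝ) + 1 := by
          rw [div_mul_cancel₀ _ (by linarith)]
          push_cast
          ring

theorem div_phi_le (n : ℕ) (hn : 1 ≤ n) :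
    (n : ℝ) / Nat.totient n ≤ 2 * (1 + Real.log n) := by
  rw [div_phi n hn]
  refine (prod_le_card _ fun p hp => (Nat.prime_of_mem_primeFactors hp).two_le).trans ?_
  have h1 : (2 : ℝ) ^ n.primeFactors.card ≤ n := by
    have h2 : 2 ^ n.primeFactors.card ≤ ∏ p ∈ n.primeFactors, p := by
      rw [← Finset.prod_const]
      exact Finset.prod_le_prod' fun p hp => (Nat.prime_of_mem_primeFactors hp).two_le
    have h3 : ∏ p ∈ n.primeFactors, p ≤ n := Nat.le_of_dvd (by omega) (Nat.prod_primeFactors_dvd n)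
    exact_mod_cast h2.trans h3
  have h4 := Real.log_le_log (by positivity) h1
  rw [Real.log_pow] at h4
  have h5 : (1 : ℝ) / 2 ≤ Real.log 2 := by
    have := Real.log_two_gt_d9
    linarith
  have h6 : (0 : ℝ) ≤ (n.primeFactors.card : ℝ) := Nat.cast_nonneg _
  nlinarith

/-- `1/φ` as an arithmetic function -/
noncomputable def iphi : ArithmeticFunction ℝ := ⟨fun n => 1 / (Nat.totient n : ℝ), by simp⟩

theorem iphi_mult : ArithmeticFunction.IsMultiplicative iphi := by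
  refine ⟨?_, fun {m n} h => ?_⟩
  · simp [iphi]
  · change 1 / (Nat.totient (m * n) : ℝ) = 1 / (Nat.totient m : ℝ) * (1 / (Nat.totient n : ℝ))
    rw [Nat.totient_mul h]
    push_cast
    rw [one_div_mul_one_div]

theorem sum_iphi {n : ℕ} (hn : Squarefree n) :
    ∑ l ∈ n.divisors, 1 / (Nat.totient l : ℝ) = (n : ℝ) / Nat.totient n := by
  have h1 : 1 ≤ n := Nat.one_le_iff_ne_zero.2 hn.ne_zero
  have h := ArithmeticFunction.IsMultiplicative.prodPrimeFactors_one_add_of_squarefree iphi_mult hn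
  rw [div_phi n h1]
  have h2 : ∑ l ∈ n.divisors, 1 / (Nat.totient l : ℝ) = ∑ l ∈ n.divisors, iphi l := rfl
  rw [h2, ← h]
  refine Finset.prod_congr rfl fun p hp => ?_
  have hp' := Nat.prime_of_mem_primeFactors hp
  change 1 + 1 / (Nat.totient p : ℝ) = _
  rw [Nat.totient_prime hp', Nat.cast_sub hp'.one_le, Nat.cast_one]
  have : (2 : ℝ) ≤ p := by exact_mod_cast hp'.two_le
  have h3 : (p : ℝ) - 1 ≠ 0 := by linarith
  field_simp
  ring

open scoped Classical in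
/-- the gap lemma -/
theorem gap (hGB : T_GB) : ∃ C : ℝ, 0 < C ∧ ∀ q Y k : ℕ, 1 ≤ Y → 1 ≤ k →
    ∑ s ∈ (SF q Y).filter (fun s => ¬ s * k ≤ Y), 1 / (Nat.totient s : ℝ) ≤
      C * (1 + Real.log k) := by
  obtain ⟨C, hC, h⟩ := hGB.2.1
  refine ⟨C, hC, fun q Y k hY hk => ?_⟩
  have hY0 : (0 : ℝ) < Y := by exact_mod_cast hY
  have hk1 : (1 : ℝ) ≤ k := by exact_mod_cast hk
  have h1 := h ((Y : ℝ) / k) k (by positivity) hk1
  have h2 : (Y : ℝ) / k * k = Y := div_mul_cancel₀ _ (by linarith)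
  rw [h2, Nat.floor_natCast] at h1
  refine le_trans (Finset.sum_le_sum_of_subset_of_nonneg ?_ fun s _ _ => phi_inv_nonneg s) h1
  intro s hs
  rw [Finset.mem_filter, mem_SF] at hs
  rw [Finset.mem_filter, Finset.mem_Icc]
  refine ⟨hs.1.1, hs.1.2.1, ?_⟩
  rw [div_lt_iff₀ (by linarith)]
  exact_mod_cast not_le.1 hs.2

theorem log_pos_of {Y : ℕ} (hY : 2 ≤ Y) : 1 / 2 ≤ Real.log Y := by
  have h1 : Real.log 2 ≤ Real.log Y := Real.log_le_log (by norm_num) (by exact_mod_cast hY)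
  have := Real.log_two_gt_d9
  linarith

theorem log_nn (n : ℕ) : 0 ≤ Real.log n := Real.log_natCast_nonneg n

/-- `G` is at least a constant times `log Y` -/
theorem G_ge (hGB : T_GB) (q : ℕ) (hq : 1 ≤ q) : ∃ c : ℝ, 0 < c ∧ ∀ Y : ℕ, 1 ≤ Y →
    c * Real.log Y ≤ fG q Y :=
  ⟨(Nat.totient q : ℝ) / q, div_pos (phi_pos hq) (by exact_mod_cast hq), fun Y hY => hGB.1 q Y hq hY⟩

end Pool.Agent.H61.OT
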