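import Pool.Agent.H61.OT.BM
import Pool.Agent.H2.PZ.VV

/-!
# (EB) bounds for the coefficients
-/

set_option autoImplicit false

open Finset Real

namespace Pool.Agent.H61.OT

open Pool.Agent.H88.OT
open Pool.Agent.H28.MZ (dv Mol V)

theorem V_add (x : ℝ) (_hx : 0 < x) : V x + V (1 / x) = 1 := by
  have hs : 0 < Real.sqrt Real.pi := Real.sqrt_pos.2 Real.pi_pos
  have hi := Pool.Agent.H2.PZ.g_int
  have h1 : ∫ v in Set.Ioi (Real.log (1 / x)), Real.exp (-(v ^ 2 / 4)) =
      ∫ v in Set.Iic (Real.log x), Real.exp (-(v ^ 2 / 4)) := by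
    have h2 := integral_comp_neg_Ioi (Real.log (1 / x)) (fun v : ℝ => Real.exp (-(v ^ 2 / 4)))
    simp only [neg_sq] at h2
    rw [h2, one_div, Real.log_inv, neg_neg]
  have h3 : (∫ v in Set.Iic (Real.log x), Real.exp (-(v ^ 2 / 4))) +
      ∫ v in Set.Ioi (Real.log x), Real.exp (-(v ^ 2 / 4)) = 2 * Real.sqrt Real.pi := by
    rw [← Pool.Agent.H2.PZ.g_val]
    exact intervalIntegral.integral_Iic_add_Ioi hi.integrableOn hi.integrableOn
  unfold V
  rw [h1, ← mul_add, add_comm, h3]
  field_simp

open scoped Classical in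
/-- the divisors up to `Y` -/
theorem filt_card (Y j : ℕ) (hj : 1 ≤ j) (f : ℕ → ℝ) (K : ℝ) (hK : 0 ≤ K)
    (hf : ∀ h, 1 ≤ h → h ≤ Y → h ∣ j → |f h| ≤ K) :
    |∑ h ∈ (Finset.Icc 1 Y).filter (fun h => h ∣ j), f h| ≤ dv j * K := by
  refine (Finset.abs_sum_le_sum_abs _ _).trans ?_
  have h1 : ∑ h ∈ (Finset.Icc 1 Y).filter (fun h => h ∣ j), |f h| ≤
      ∑ h ∈ (Finset.Icc 1 Y).filter (fun h => h ∣ j), K := by
    refine Finset.sum_le_sum fun h hh => ?_
    rw [Finset.mem_filter, Finset.mem_Icc] at hh
    exact hf h hh.1.1 hh.1.2 hh.2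
  refine h1.trans ?_
  rw [Finset.sum_const, nsmul_eq_mul]
  refine mul_le_mul_of_nonneg_right ?_ hK
  unfold dv
  have h2 : (Finset.Icc 1 Y).filter (fun h => h ∣ j) ⊆ j.divisors := by
    intro h hh
    rw [Finset.mem_filter] at hh
    exact Nat.mem_divisors.2 ⟨hh.2, by omega⟩
  exact_mod_cast Finset.card_le_card h2

theorem dv_nn (j : ℕ) : 0 ≤ dv j := by unfold dv; positivity

theorem pf_EB (hSB : T_SB) (hBM : T_BM) : T_EB := by
  classical
  intro q hq
  have hVV := Pool.Agent.H2.PZ.vv
  have hV01 := hVV.1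
  refine ⟨fun Y M j hY hM hj => ?_, fun A => ?_, ?_⟩
  · have hmol := (hSB q Y hq hY).1
    have h := filt_card Y j hj (fun h => fb q Y h * V ((j : ℝ) / h / M)) 1 zero_le_one ?_
    · rw [mul_one] at h
      exact h
    · intro h h1 _ _
      have hh0 : (0 : ℝ) < h := by exact_mod_cast h1
      have hj0 : (0 : ℝ) < j := by exact_mod_cast hj
      have hx : 0 < (j : ℝ) / h / M := by positivity
      rw [abs_mul, abs_of_nonneg (hV01 _ hx).1]
      have := mul_le_mul (hmol.le h) (hV01 _ hx).2 (hV01 _ hx).1 zero_le_one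
      linarith
  · obtain ⟨C, hC, hd⟩ := hVV.2.2.2.1 A (Nat.cast_nonneg A)
    refine ⟨C, hC, fun Y M j hY hM hj => ?_⟩
    have hmol := (hSB q Y hq hY).1
    have hj0 : (0 : ℝ) < j := by exact_mod_cast hj
    have hY0 : (0 : ℝ) < Y := by exact_mod_cast hY
    have h := filt_card Y j hj (fun h => fb q Y h * V ((j : ℝ) / h / M))
      (C * (M * Y / j) ^ A) (by positivity) ?_
    · have e : C * dv j * (M * Y / j) ^ A = dv j * (C * (M * Y / j) ^ A) := by ring
      rw [e]
      exact h
    · intro h h1 h2 _
      have hh0 : (0 : ℝ) < h := by exact_mod_cast h1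
      have hhY : (h : ℝ) ≤ Y := by exact_mod_cast h2
      have hx : 0 < (j : ℝ) / h / M := by positivity
      rw [abs_mul, abs_of_nonneg (hV01 _ hx).1]
      have h3 : V ((j : ℝ) / h / M) ≤ C * (M * Y / j) ^ A := by
        refine (hd _ hx).trans ?_
        refine mul_le_mul_of_nonneg_left ?_ hC.le
        rw [Real.rpow_neg hx.le, Real.rpow_natCast, ← inv_pow]
        refine pow_le_pow_left₀ (by positivity) ?_ A
        have e : ((j : ℝ) / h / M)⁻¹ = M * h / j := by
          field_simp
        rw [e]
        refine div_le_div_of_nonneg_right ?_ hj0.le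
        exact mul_le_mul_of_nonneg_left hhY hM.le
      have := mul_le_mul (hmol.le h) h3 (hV01 _ hx).1 zero_le_one
      linarith
  · obtain ⟨C, hC, hd⟩ := hVV.2.2.2.1 1 zero_le_one
    obtain ⟨D, hD, hb⟩ := hBM q hq
    refine ⟨C + D, by positivity, fun Y M hY hM => ⟨?_, fun j hj hjq => ?_⟩⟩
    · have hY1 : 1 ≤ Y := by omega
      have hM0 : 0 < M := by linarith
      have hmol := (hSB q Y hq hY1).1
      have e1 : (Finset.Icc 1 Y).filter (fun h => h ∣ 1) = {1} := by
        ext h
        rw [Finset.mem_filter, Finset.mem_Icc, Nat.dvd_one, Finset.mem_singleton]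
        constructor
        · exact fun h => h.2
        · rintro rfl
          exact ⟨⟨le_rfl, hY1⟩, rfl⟩
      have e2 : ec q Y M 1 = V (1 / M) := by
        unfold ec
        rw [e1, Finset.sum_singleton, hmol.one]
        simp
      have h1 := V_add M hM0
      have h2 := hV01 M hM0
      have h3 := hd M hM0
      rw [Real.rpow_neg hM0.le, Real.rpow_one] at h3
      rw [e2, abs_of_nonpos (by linarith)]
      have h4 : (C + D) / M = C * M⁻¹ + D / M := by
        field_simp
      rw [h4]
      have : 0 ≤ D / M := by positivity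
      linarith
    · have hY1 : 1 ≤ Y := by omega
      have hM0 : 0 < M := by linarith
      have hj1 : 1 ≤ j := by omega
      have hj0 : (0 : ℝ) < j := by exact_mod_cast hj1
      have hlY := log_pos_of hY
      have hlj := log_nn j
      have hmol := (hSB q Y hq hY1).1
      have e1 : ec q Y M j = ∑ h ∈ (Finset.Icc 1 Y).filter (fun h => h ∣ j), fb q Y h -
          ∑ h ∈ (Finset.Icc 1 Y).filter (fun h => h ∣ j), fb q Y h * (1 - V ((j : ℝ) / h / M)) := by
        unfold ec
        rw [← Finset.sum_sub_distrib]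
        refine Finset.sum_congr rfl fun h _ => ?_
        ring
      have h1 : |∑ h ∈ (Finset.Icc 1 Y).filter (fun h => h ∣ j),
          fb q Y h * (1 - V ((j : ℝ) / h / M))| ≤ dv j * (C * (j / M)) := by
        refine filt_card Y j hj1 _ _ (by positivity) fun h h2 _ _ => ?_
        have hh0 : (1 : ℝ) ≤ h := by exact_mod_cast h2
        have hx : 0 < (j : ℝ) / h / M := by positivity
        have h3 := V_add _ hx
        have hy : 0 < 1 / ((j : ℝ) / h / M) := by positivity
        have h4 := hd _ hy
        rw [Real.rpow_neg hy.le, Real.rpow_one, one_div, inv_inv] at h4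
        rw [one_div] at h3
        have h5 := hV01 _ hx
        rw [abs_mul, abs_of_nonneg (by linarith : 0 ≤ 1 - V ((j : ℝ) / h / M))]
        have h6 : (j : ℝ) / h / M ≤ j / M := by
          refine div_le_div_of_nonneg_right ?_ hM0.le
          exact div_le_self hj0.le hh0
        have h7 : 1 - V ((j : ℝ) / h / M) ≤ C * (j / M) := by
          have := mul_le_mul_of_nonneg_left h6 hC.le
          linarith
        have := mul_le_mul (hmol.le h) h7 (by linarith) zero_le_one
        linarith
      have h2 : ∑ h ∈ (Finset.Icc 1 Y).filter (fun h => h ∣ j), fb q Y h =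
          ∑ h ∈ j.divisors, (fb q Y h - (ArithmeticFunction.moebius h : ℝ)) := by
        have h3 : ∑ h ∈ (Finset.Icc 1 Y).filter (fun h => h ∣ j), fb q Y h =
            ∑ h ∈ j.divisors, fb q Y h := by
          refine Finset.sum_subset ?_ ?_
          · intro h hh
            rw [Finset.mem_filter] at hh
            exact Nat.mem_divisors.2 ⟨hh.2, by omega⟩
          · intro h hh hnh
            rw [Nat.mem_divisors] at hh
            rw [Finset.mem_filter, Finset.mem_Icc] at hnh
            have h4 : 1 ≤ h := Nat.pos_of_dvd_of_pos hh.1 (by omega)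
            refine fb_large q Y h ?_
            by_contra h5
            exact hnh ⟨⟨h4, by omega⟩, hh.1⟩
        have h4 : ∑ h ∈ j.divisors, (ArithmeticFunction.moebius h : ℝ) = 0 := by
          have h5 : ∑ h ∈ j.divisors, ArithmeticFunction.moebius h = 0 := by
            have h6 := ArithmeticFunction.coe_zeta_mul_moebius
            have h7 := ArithmeticFunction.coe_zeta_mul_apply (f := ArithmeticFunction.moebius) (x := j)
            rw [← h7, h6, ArithmeticFunction.one_apply_ne (by omega)]
          exact_mod_cast h5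
        rw [h3, Finset.sum_sub_distrib, h4, sub_zero]
      have h3 : |∑ h ∈ (Finset.Icc 1 Y).filter (fun h => h ∣ j), fb q Y h| ≤
          dv j * (D * (1 + Real.log j) ^ 2 / Real.log Y) := by
        rw [h2]
        refine (Finset.abs_sum_le_sum_abs _ _).trans ?_
        have h4 : ∑ h ∈ j.divisors, |fb q Y h - (ArithmeticFunction.moebius h : ℝ)| ≤
            ∑ h ∈ j.divisors, D * (1 + Real.log j) ^ 2 / Real.log Y := by
          refine Finset.sum_le_sum fun h hh => ?_
          rw [Nat.mem_divisors] at hh
          have h5 : 1 ≤ h := Nat.pos_of_dvd_of_pos hh.1 (by omega)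
          refine (hb Y h hY h5 (hjq.coprime_dvd_left hh.1)).trans ?_
          refine div_le_div_of_nonneg_right ?_ (by linarith)
          refine mul_le_mul_of_nonneg_left ?_ hD.le
          have h6 : Real.log h ≤ Real.log j :=
            Real.log_le_log (by exact_mod_cast h5)
              (by exact_mod_cast Nat.le_of_dvd (by omega) hh.1)
          have := log_nn h
          exact pow_le_pow_left₀ (by linarith) (by linarith) 2
        refine h4.trans ?_
        rw [Finset.sum_const, nsmul_eq_mul]
        exact le_rfl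
      rw [e1]
      have h4 := abs_sub (∑ h ∈ (Finset.Icc 1 Y).filter (fun h => h ∣ j), fb q Y h)
        (∑ h ∈ (Finset.Icc 1 Y).filter (fun h => h ∣ j), fb q Y h * (1 - V ((j : ℝ) / h / M)))
      refine h4.trans ?_
      have h5 : (C + D) * dv j * ((1 + Real.log j) ^ 2 / Real.log Y + j / M) =
          dv j * (D * (1 + Real.log j) ^ 2 / Real.log Y) + dv j * (C * (j / M)) +
          (dv j * C * ((1 + Real.log j) ^ 2 / Real.log Y) + dv j * D * (j / M)) := by ring
      rw [h5]
      have h6 : 0 ≤ dv j * C * ((1 + Real.log j) ^ 2 / Real.log Y) + dv j * D * (j / M) := by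
        have := dv_nn j
        positivity
      linarith

end Pool.Agent.H61.OT
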