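import Pool.Agent.H88.OT.Targets
import Pool.Agent.H22.MR.Cheb

/-!
# (PE) Mertens for Selberg's weights
-/

set_option autoImplicit false

open Finset Real
open scoped ArithmeticFunction.vonMangoldt

namespace Pool.Agent.H61.OT

open Pool.Agent.H88.OT

/-- `log p/(p-1)` is nonnegative -/
theorem lt_nonneg (p : ℕ) : 0 ≤ Real.log p / ((p : ℝ) - 1) := by
  rcases Nat.eq_zero_or_pos p with rfl | hp
  · simp
  · have h1 : (1 : ℝ) ≤ p := by exact_mod_cast hp
    exact div_nonneg (Real.log_nonneg h1) (by linarith)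

theorem la_nonneg (n : ℕ) : 0 ≤ la n := Finset.sum_nonneg fun p _ => lt_nonneg p

open scoped Classical in
/-- all primes up to `N` -/
noncomputable def MN (N : ℕ) : ℝ :=
  ∑ p ∈ (Finset.Icc 1 N).filter (fun p => p.Prime), Real.log p / ((p : ℝ) - 1)

theorem geo_le (p N : ℕ) (hp : p.Prime) :
    ∑ k ∈ Finset.Icc 1 N, Real.log p / ((p ^ k : ℕ) : ℝ) ≤ Real.log p / ((p : ℝ) - 1) := by
  have h2 : (2 : ℝ) ≤ p := by exact_mod_cast hp.two_le
  have hl : 0 ≤ Real.log p := Real.log_nonneg (by linarith)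
  have hr0 : (0 : ℝ) ≤ (p : ℝ)⁻¹ := by positivity
  have hr1 : (p : ℝ)⁻¹ < 1 := inv_lt_one_of_one_lt₀ (by linarith)
  have h : ∀ n : ℕ, ∑ k ∈ Finset.Icc 1 n, ((p : ℝ)⁻¹) ^ k ≤ 1 / ((p : ℝ) - 1) - ((p : ℝ)⁻¹) ^ n / ((p : ℝ) - 1) := by
    intro n
    induction n with
    | zero => simp
    | succ n ih =>
      rw [Finset.sum_Icc_succ_top (by omega)]
      have e : ((p : ℝ)⁻¹) ^ (n + 1) = ((p : ℝ)⁻¹) ^ n / ((p : ℝ) - 1) - ((p : ℝ)⁻¹) ^ (n + 1) / ((p : ℝ) - 1) := by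
        have h3 : (p : ℝ) - 1 ≠ 0 := by linarith
        have h4 : (p : ℝ) ≠ 0 := by linarith
        rw [pow_succ]
        field_simp
      linarith
  have h5 := h N
  have h6 : 0 ≤ ((p : ℝ)⁻¹) ^ N / ((p : ℝ) - 1) := div_nonneg (pow_nonneg hr0 _) (by linarith)
  have h7 : ∑ k ∈ Finset.Icc 1 N, Real.log p / ((p ^ k : ℕ) : ℝ) =
      Real.log p * ∑ k ∈ Finset.Icc 1 N, ((p : ℝ)⁻¹) ^ k := by
    rw [Finset.mul_sum]
    refine Finset.sum_congr rfl fun k _ => ?_
    push_cast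
    rw [inv_pow, div_eq_mul_inv]
  rw [h7, div_eq_mul_one_div (Real.log p)]
  exact mul_le_mul_of_nonneg_left (by linarith) hl

open scoped Classical in
theorem MN_ge (N : ℕ) : ∑ n ∈ Finset.Icc 1 N, Λ n / n ≤ MN N := by
  have h1 : ∑ n ∈ Finset.Icc 1 N, Λ n / n =
      ∑ n ∈ (Finset.Icc 1 N).filter (fun n => IsPrimePow n), Real.log n.minFac / n := by
    rw [Finset.sum_filter]
    refine Finset.sum_congr rfl fun n _ => ?_
    rw [ArithmeticFunction.vonMangoldt_apply]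
    split_ifs <;> simp
  rw [h1]
  have h2 : ∑ n ∈ (Finset.Icc 1 N).filter (fun n => IsPrimePow n), Real.log n.minFac / n =
      ∑ p ∈ (Finset.Icc 1 N).filter (fun p => p.Prime),
        ∑ n ∈ ((Finset.Icc 1 N).filter (fun n => IsPrimePow n)).filter (fun n => n.minFac = p),
          Real.log n.minFac / n := by
    refine (Finset.sum_fiberwise_of_maps_to (fun n hn => ?_) _).symm
    simp only [Finset.mem_filter, Finset.mem_Icc] at hn ⊢
    have h3 : n ≠ 1 := hn.2.ne_one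
    have h4 := Nat.minFac_prime h3
    exact ⟨⟨h4.one_le, (Nat.minFac_le (by omega)).trans hn.1.2⟩, h4⟩
  rw [h2]
  unfold MN
  refine Finset.sum_le_sum fun p hp => ?_
  simp only [Finset.mem_filter, Finset.mem_Icc] at hp
  refine le_trans ?_ (geo_le p N hp.2)
  have h5 : ∑ k ∈ Finset.Icc 1 N, Real.log p / ((p ^ k : ℕ) : ℝ) =
      ∑ n ∈ (Finset.Icc 1 N).image (fun k => p ^ k), Real.log p / (n : ℝ) := by
    rw [Finset.sum_image]
    intro a _ b _ hab
    exact Nat.pow_right_injective hp.2.two_le hab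
  rw [h5]
  have h6 : ∑ n ∈ ((Finset.Icc 1 N).filter (fun n => IsPrimePow n)).filter (fun n => n.minFac = p),
      Real.log n.minFac / n =
      ∑ n ∈ ((Finset.Icc 1 N).filter (fun n => IsPrimePow n)).filter (fun n => n.minFac = p),
      Real.log p / n := by
    refine Finset.sum_congr rfl fun n hn => ?_
    rw [(Finset.mem_filter.1 hn).2]
  rw [h6]
  refine Finset.sum_le_sum_of_subset_of_nonneg ?_ fun n _ _ => by positivity
  intro n hn
  simp only [Finset.mem_filter, Finset.mem_Icc, Finset.mem_image] at hn ⊢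
  obtain ⟨⟨⟨hn1, hn2⟩, hpp⟩, hm⟩ := hn
  obtain ⟨r, k, hr, hk, rfl⟩ := (isPrimePow_nat_iff _).1 hpp
  have h7 : (r ^ k).minFac = r := by
    rw [Nat.Prime.pow_minFac hr (by omega)]
  rw [h7] at hm
  subst hm
  exact ⟨k, ⟨hk, (Nat.lt_pow_self hr.one_lt).le.trans hn2⟩, rfl⟩

theorem sq_term (p : ℕ) (hp : p.Prime) :
    Real.log p / ((p : ℝ) - 1) ≤ Real.log p / p + 4 * (p : ℝ) ^ (-(3 / 2) : ℝ) := by
  have h2 : (2 : ℝ) ≤ p := by exact_mod_cast hp.two_le
  have hp0 : (0 : ℝ) < p := by linarith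
  have h1 : Real.log p ≤ 2 * (p : ℝ) ^ (1 / 2 : ℝ) := by
    have h := Real.log_le_rpow_div hp0.le (show (0 : ℝ) < 1 / 2 by norm_num)
    linarith
  have h3 : Real.log p / ((p : ℝ) - 1) - Real.log p / p = Real.log p / (p * ((p : ℝ) - 1)) := by
    have : (p : ℝ) - 1 ≠ 0 := by linarith
    field_simp
    ring
  have h4 : Real.log p / (p * ((p : ℝ) - 1)) ≤ 4 * (p : ℝ) ^ (-(3 / 2) : ℝ) := by
    rw [div_le_iff₀ (by nlinarith)]
    have h5 : (p : ℝ) ^ (-(3 / 2) : ℝ) * (p * p) = (p : ℝ) ^ (1 / 2 : ℝ) := by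
      have : (p : ℝ) * p = (p : ℝ) ^ (2 : ℝ) := by
        rw [show (2 : ℝ) = ((2 : ℕ) : ℝ) by norm_num, Real.rpow_natCast]
        ring
      rw [this, ← Real.rpow_add hp0]
      norm_num
    have h6 : 0 < (p : ℝ) ^ (-(3 / 2) : ℝ) := Real.rpow_pos_of_pos hp0 _
    have h7 : (p : ℝ) * p ≤ 2 * (p * (p - 1)) := by nlinarith
    have h8 := mul_le_mul_of_nonneg_left h7 h6.le
    nlinarith
  linarith

open scoped Classical in
theorem MN_le : ∃ S : ℝ, 0 ≤ S ∧ ∀ N : ℕ, MN N ≤ ∑ n ∈ Finset.Icc 1 N, Λ n / n + S := by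
  have hs : Summable (fun n : ℕ => 4 * (n : ℝ) ^ (-(3 / 2) : ℝ)) :=
    (Real.summable_nat_rpow.2 (by norm_num)).mul_left 4
  refine ⟨∑' n : ℕ, 4 * (n : ℝ) ^ (-(3 / 2) : ℝ), tsum_nonneg fun n => by positivity, fun N => ?_⟩
  have h1 : MN N ≤ ∑ p ∈ (Finset.Icc 1 N).filter (fun p => p.Prime), Real.log p / p +
      ∑ p ∈ (Finset.Icc 1 N).filter (fun p => p.Prime), 4 * (p : ℝ) ^ (-(3 / 2) : ℝ) := by
    rw [← Finset.sum_add_distrib]
    unfold MN
    refine Finset.sum_le_sum fun p hp => ?_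
    simp only [Finset.mem_filter] at hp
    exact sq_term p hp.2
  have h2 : ∑ p ∈ (Finset.Icc 1 N).filter (fun p => p.Prime), 4 * (p : ℝ) ^ (-(3 / 2) : ℝ) ≤
      ∑' n : ℕ, 4 * (n : ℝ) ^ (-(3 / 2) : ℝ) :=
    hs.sum_le_tsum _ fun n _ => by positivity
  have h3 : ∑ p ∈ (Finset.Icc 1 N).filter (fun p => p.Prime), Real.log p / p ≤
      ∑ n ∈ Finset.Icc 1 N, Λ n / n := by
    rw [Finset.sum_filter]
    refine Finset.sum_le_sum fun n _ => ?_
    split_ifs with h
    · rw [ArithmeticFunction.vonMangoldt_apply_prime h]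
    · exact div_nonneg ArithmeticFunction.vonMangoldt_nonneg (Nat.cast_nonneg _)
  linarith

theorem pf_PE : T_PE := by
  classical
  intro q hq
  obtain ⟨S, hS0, hS⟩ := MN_le
  refine ⟨S + la q + 8, by linarith [la_nonneg q], fun Y e he heY => ?_⟩
  set N := Y / e with hN
  have hN1 : 1 ≤ N := (Nat.one_le_div_iff (by omega)).2 heY
  have hN0 : (0 : ℝ) < N := by exact_mod_cast hN1
  have he0 : (0 : ℝ) < e := by exact_mod_cast he
  have hY0 : (0 : ℝ) < Y := by exact_mod_cast (by omega : 0 < Y)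
  have h1 : Real.log N ≤ Real.log Y - Real.log e := by
    rw [← Real.log_div hY0.ne' he0.ne']
    refine Real.log_le_log hN0 ?_
    rw [le_div_iff₀ he0]
    exact_mod_cast Nat.div_mul_le_self Y e
  have h2 : Real.log Y - Real.log e ≤ Real.log N + 1 := by
    have h3 : (Y : ℝ) ≤ 2 * N * e := by
      have h4 : Y < (N + 1) * e := by
        have := Nat.lt_div_mul_add (a := Y) (show 0 < e by omega)
        rw [← hN] at this
        linarith [this, add_mul N 1 e]
      have h5 : (N + 1) * e ≤ 2 * N * e := Nat.mul_le_mul_right _ (by omega)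
      exact_mod_cast (h4.le.trans h5)
    have h6 := Real.log_le_log hY0 h3
    rw [Real.log_mul (by positivity) he0.ne', Real.log_mul (by norm_num) hN0.ne'] at h6
    have := Real.log_two_lt_d9
    linarith
  have h3 : fP q Y e ≤ MN N := by
    unfold fP MN
    refine Finset.sum_le_sum_of_subset_of_nonneg ?_ fun p _ _ => lt_nonneg p
    intro p hp
    simp only [Finset.mem_filter] at hp ⊢
    exact ⟨hp.1, hp.2.1⟩
  have h4 : MN N ≤ fP q Y e + la e + la q := by
    have h5 : (Finset.Icc 1 N).filter (fun p => p.Prime) ⊆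
        ((Finset.Icc 1 N).filter (fun p => p.Prime ∧ ¬ p ∣ e ∧ ¬ p ∣ q)) ∪
          (e.primeFactors ∪ q.primeFactors) := by
      intro p hp
      simp only [Finset.mem_filter, Finset.mem_union, Nat.mem_primeFactors] at hp ⊢
      by_cases h6 : p ∣ e
      · exact Or.inr (Or.inl ⟨hp.2, h6, by omega⟩)
      · by_cases h7 : p ∣ q
        · exact Or.inr (Or.inr ⟨hp.2, h7, by omega⟩)
        · exact Or.inl ⟨hp.1, hp.2, h6, h7⟩
    have hU : ∀ (s t : Finset ℕ), ∑ p ∈ s ∪ t, Real.log p / ((p : ℝ) - 1) ≤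
        ∑ p ∈ s, Real.log p / ((p : ℝ) - 1) + ∑ p ∈ t, Real.log p / ((p : ℝ) - 1) := by
      intro s t
      rw [← Finset.sum_union_inter]
      have : 0 ≤ ∑ p ∈ s ∩ t, Real.log p / ((p : ℝ) - 1) := Finset.sum_nonneg fun p _ => lt_nonneg p
      linarith
    have h8 : MN N ≤ ∑ p ∈ ((Finset.Icc 1 N).filter (fun p => p.Prime ∧ ¬ p ∣ e ∧ ¬ p ∣ q)) ∪
          (e.primeFactors ∪ q.primeFactors), Real.log p / ((p : ℝ) - 1) :=
      Finset.sum_le_sum_of_subset_of_nonneg h5 fun p _ _ => lt_nonneg p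
    have h9 := hU ((Finset.Icc 1 N).filter (fun p => p.Prime ∧ ¬ p ∣ e ∧ ¬ p ∣ q))
      (e.primeFactors ∪ q.primeFactors)
    have h10 := hU e.primeFactors q.primeFactors
    unfold fP la
    linarith
  have h5 := MN_ge N
  have h6 := hS N
  have h7 := Pool.Agent.H22.MR.mertens_le hN1
  have h8 := Pool.Agent.H22.MR.mertens_ge hN1
  have h9 := la_nonneg e
  have h10 := la_nonneg q
  have h11 : 0 ≤ (S + la q + 8) * la e := by positivity
  have h12 : la e ≤ (S + la q + 8) * la e := by nlinarith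
  rw [abs_le]
  constructor
  · nlinarith
  · nlinarith

end Pool.Agent.H61.OT
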