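import Pool.Agent.H61.OT.Base
import Pool.Agent.H61.OT.PE

/-!
# (QB) the forms off the diagonal
-/

set_option autoImplicit false

open Finset Real

namespace Pool.Agent.H61.OT

open Pool.Agent.H88.OT
open Pool.Agent.H28.MZ (dv)

theorem la_mul_le (m n : ℕ) (hm : m ≠ 0) (hn : n ≠ 0) : la (m * n) ≤ la m + la n := by
  classical
  unfold la
  rw [Nat.primeFactors_mul hm hn, ← Finset.sum_union_inter]
  have : 0 ≤ ∑ p ∈ m.primeFactors ∩ n.primeFactors, Real.log p / ((p : ℝ) - 1) :=
    Finset.sum_nonneg fun p _ => lt_nonneg p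
  linarith

theorem la_le_log (n : ℕ) (hn : 1 ≤ n) : la n ≤ Real.log n := by
  unfold la
  have h1 : ∑ p ∈ n.primeFactors, Real.log p / ((p : ℝ) - 1) ≤ ∑ p ∈ n.primeFactors, Real.log p := by
    refine Finset.sum_le_sum fun p hp => ?_
    have h2 : (2 : ℝ) ≤ p := by exact_mod_cast (Nat.prime_of_mem_primeFactors hp).two_le
    exact div_le_self (Real.log_nonneg (by linarith)) (by linarith)
  refine h1.trans ?_
  rw [← Real.log_prod (fun p hp => ?_)]
  · refine Real.log_le_log (Finset.prod_pos fun p hp => ?_) ?_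
    · exact_mod_cast (Nat.prime_of_mem_primeFactors hp).pos
    · have h3 := Nat.le_of_dvd (by omega) (Nat.prod_primeFactors_dvd n)
      have h4 : ((∏ p ∈ n.primeFactors, p : ℕ) : ℝ) ≤ n := by exact_mod_cast h3
      rw [Nat.cast_prod] at h4
      exact h4
  · have := (Nat.prime_of_mem_primeFactors hp).pos
    positivity

open scoped Classical in
/-- the sum of the Moebius function over pairs of divisors vanishes -/
theorem mu_pair {a b : ℕ} (hab : (a, b) ≠ (1, 1)) :
    ∑ α ∈ a.divisors, ∑ β ∈ b.divisors,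
      (ArithmeticFunction.moebius α : ℝ) * (ArithmeticFunction.moebius β : ℝ) = 0 := by
  have hz : ∀ n : ℕ, n ≠ 1 → ∑ l ∈ n.divisors, (ArithmeticFunction.moebius l : ℝ) = 0 := by
    intro n hn
    have h5 : ∑ h ∈ n.divisors, ArithmeticFunction.moebius h = 0 := by
      have h6 := ArithmeticFunction.coe_zeta_mul_moebius
      have h7 := ArithmeticFunction.coe_zeta_mul_apply (f := ArithmeticFunction.moebius) (x := n)
      rw [← h7, h6, ArithmeticFunction.one_apply_ne hn]
    exact_mod_cast h5
  rw [← Finset.sum_mul_sum]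
  by_cases h : a = 1
  · have h2 : b ≠ 1 := by
      rintro rfl
      exact hab (by rw [h])
    rw [hz b h2, mul_zero]
  · rw [hz a h, zero_mul]

theorem dv_mul {a b : ℕ} (hab : Nat.Coprime a b) : dv (a * b) = dv a * dv b := by
  unfold dv
  rw [Nat.Coprime.card_divisors_mul hab]
  push_cast
  rfl

theorem mu_le (n : ℕ) : |(ArithmeticFunction.moebius n : ℝ)| ≤ 1 := by
  have h := ArithmeticFunction.abs_moebius_le_one (n := n)
  exact_mod_cast h

open scoped Classical in
/-- double sums with Moebius signs, off the diagonal -/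
theorem mu_bound {a b : ℕ} (hco : Nat.Coprime a b)
    (hab : (a, b) ≠ (1, 1)) (F : ℕ → ℕ → ℝ) (F₀ K : ℝ)
    (hF : ∀ α ∈ a.divisors, ∀ β ∈ b.divisors, |F α β - F₀| ≤ K) :
    |∑ α ∈ a.divisors, ∑ β ∈ b.divisors,
      (ArithmeticFunction.moebius α : ℝ) * (ArithmeticFunction.moebius β : ℝ) * F α β| ≤
      dv (a * b) * K := by
  have h1 : ∑ α ∈ a.divisors, ∑ β ∈ b.divisors,
      (ArithmeticFunction.moebius α : ℝ) * (ArithmeticFunction.moebius β : ℝ) * F α β =
      ∑ α ∈ a.divisors, ∑ β ∈ b.divisors,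
      (ArithmeticFunction.moebius α : ℝ) * (ArithmeticFunction.moebius β : ℝ) * (F α β - F₀) := by
    have h2 : ∑ α ∈ a.divisors, ∑ β ∈ b.divisors,
      (ArithmeticFunction.moebius α : ℝ) * (ArithmeticFunction.moebius β : ℝ) * (F α β - F₀) =
      ∑ α ∈ a.divisors, ∑ β ∈ b.divisors,
      (ArithmeticFunction.moebius α : ℝ) * (ArithmeticFunction.moebius β : ℝ) * F α β -
      (∑ α ∈ a.divisors, ∑ β ∈ b.divisors,
      (ArithmeticFunction.moebius α : ℝ) * (ArithmeticFunction.moebius β : ℝ)) * F₀ := by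
      simp only [mul_sub, Finset.sum_sub_distrib, Finset.sum_mul]
    rw [h2, mu_pair hab, zero_mul, sub_zero]
  rw [h1]
  refine (Finset.abs_sum_le_sum_abs _ _).trans ?_
  have h3 : ∀ α ∈ a.divisors, |∑ β ∈ b.divisors,
      (ArithmeticFunction.moebius α : ℝ) * (ArithmeticFunction.moebius β : ℝ) * (F α β - F₀)| ≤
      dv b * K := by
    intro α hα
    refine (Finset.abs_sum_le_sum_abs _ _).trans ?_
    have h4 : ∑ β ∈ b.divisors,
        |(ArithmeticFunction.moebius α : ℝ) * (ArithmeticFunction.moebius β : ℝ) * (F α β - F₀)| ≤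
        ∑ β ∈ b.divisors, K := by
      refine Finset.sum_le_sum fun β hβ => ?_
      rw [abs_mul, abs_mul]
      have h5 := mu_le α
      have h6 := mu_le β
      have h7 := hF α hα β hβ
      have h8 : |(ArithmeticFunction.moebius α : ℝ)| * |(ArithmeticFunction.moebius β : ℝ)| ≤ 1 :=
        mul_le_one₀ h5 (abs_nonneg _) h6
      have h9 := mul_le_mul h8 h7 (abs_nonneg _) zero_le_one
      linarith
    refine h4.trans ?_
    rw [Finset.sum_const, nsmul_eq_mul]
    exact le_rfl
  refine (Finset.sum_le_sum h3).trans ?_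
  rw [Finset.sum_const, nsmul_eq_mul, dv_mul hco, mul_assoc]
  exact le_rfl

open scoped Classical in
theorem pf_QB (hQI : T_QI) (hGB : T_GB) (hPE : T_PE) : T_QB := by
  intro q hq
  obtain ⟨C, hC, hgap⟩ := gap hGB
  obtain ⟨c, hc, hG⟩ := G_ge hGB q hq
  obtain ⟨P, hP, hpe⟩ := hPE q hq
  obtain ⟨D, hD, hla⟩ := hGB.2.2
  refine ⟨C / c ^ 2 + (2 * C + (6 * P + 8) * (1 + D)) * (2 / c + 1) / c, by positivity,
    fun Y a b hY ha hb hco hcq hab => ?_⟩
  have hY1 : 1 ≤ Y := by omega
  have hlY := log_pos_of hY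
  have hGpos := fG_pos (q := q) hY1
  have hGc := hG Y hY1
  have hab1 : 1 ≤ a * b := Nat.mul_pos ha hb
  have hab0 : (0 : ℝ) < (a : ℝ) * b := by
    have : (0 : ℝ) < ((a * b : ℕ) : ℝ) := by exact_mod_cast hab1
    rw [Nat.cast_mul] at this
    exact this
  have hL0 : 0 ≤ Real.log ((a : ℝ) * b) := by
    have := log_nn (a * b)
    rw [Nat.cast_mul] at this
    exact this
  set L := Real.log ((a : ℝ) * b) with hL
  obtain ⟨q1, q2⟩ := hQI q Y a b hq hY1 ha hb hco hcq
  -- bounds for divisors
  have hdiv : ∀ α ∈ a.divisors, ∀ β ∈ b.divisors, 1 ≤ α ∧ 1 ≤ β ∧ 1 ≤ max α β ∧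
      Real.log (max α β : ℕ) ≤ L ∧ Real.log α ≤ L ∧ Real.log β ≤ L ∧ Real.log ((α : ℝ) * β) ≤ L := by
    intro α hα β hβ
    rw [Nat.mem_divisors] at hα hβ
    have h1 : 1 ≤ α := Nat.pos_of_dvd_of_pos hα.1 (by omega)
    have h2 : 1 ≤ β := Nat.pos_of_dvd_of_pos hβ.1 (by omega)
    have h3 : α * β ≤ a * b := Nat.le_of_dvd hab1 (Nat.mul_dvd_mul hα.1 hβ.1)
    have h4 : (α : ℝ) * β ≤ (a : ℝ) * b := by exact_mod_cast h3
    have h5 : (1 : ℝ) ≤ α := by exact_mod_cast h1
    have h6 : (1 : ℝ) ≤ β := by exact_mod_cast h2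
    have h7 : α ≤ α * β := Nat.le_mul_of_pos_right _ (by omega)
    have h8 : β ≤ α * β := Nat.le_mul_of_pos_left _ (by omega)
    have h9 : max α β ≤ a * b := (max_le h7 h8).trans h3
    have h10 : 1 ≤ max α β := h1.trans (le_max_left _ _)
    have h11 : ((max α β : ℕ) : ℝ) ≤ (a : ℝ) * b := by exact_mod_cast h9
    refine ⟨h1, h2, h10, ?_, ?_, ?_, ?_⟩
    · exact Real.log_le_log (by exact_mod_cast h10) h11
    · exact Real.log_le_log (by linarith) (le_trans (by nlinarith) h4)
    · exact Real.log_le_log (by linarith) (le_trans (by nlinarith) h4)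
    · exact Real.log_le_log (by nlinarith) h4
  -- the sets
  have hsplit : ∀ (k : ℕ) (f : ℕ → ℝ),
      ∑ s ∈ (SF q Y).filter (fun s => s * k ≤ Y ∧ Nat.Coprime s (a * b)), f s -
        ∑ s ∈ (SF q Y).filter (fun s => Nat.Coprime s (a * b)), f s =
      -∑ s ∈ ((SF q Y).filter (fun s => Nat.Coprime s (a * b))).filter (fun s => ¬ s * k ≤ Y),
        f s := by
    intro k f
    rw [← Finset.sum_filter_add_sum_filter_not ((SF q Y).filter (fun s => Nat.Coprime s (a * b)))
      (fun s => s * k ≤ Y)]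
    have e : ((SF q Y).filter (fun s => Nat.Coprime s (a * b))).filter (fun s => s * k ≤ Y) =
        (SF q Y).filter (fun s => s * k ≤ Y ∧ Nat.Coprime s (a * b)) := by
      rw [Finset.filter_filter]
      refine Finset.filter_congr fun s _ => ?_
      exact and_comm
    rw [e]
    ring
  have hgap2 : ∀ k : ℕ, 1 ≤ k → Real.log k ≤ L →
      ∑ s ∈ ((SF q Y).filter (fun s => Nat.Coprime s (a * b))).filter (fun s => ¬ s * k ≤ Y),
        1 / (Nat.totient s : ℝ) ≤ C * (1 + L) := by
    intro k hk hkL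
    have h1 : ∑ s ∈ ((SF q Y).filter (fun s => Nat.Coprime s (a * b))).filter
        (fun s => ¬ s * k ≤ Y), 1 / (Nat.totient s : ℝ) ≤
        ∑ s ∈ (SF q Y).filter (fun s => ¬ s * k ≤ Y), 1 / (Nat.totient s : ℝ) := by
      refine Finset.sum_le_sum_of_subset_of_nonneg ?_ fun s _ _ => phi_inv_nonneg s
      intro s hs
      simp only [Finset.mem_filter] at hs ⊢
      exact ⟨hs.1.1, hs.2⟩
    refine h1.trans ((hgap q Y k hY1 hk).trans ?_)
    exact mul_le_mul_of_nonneg_left (by linarith) hC.le
  have hdv := dv_mul hco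
  have hdv0 : 0 ≤ dv (a * b) := by unfold dv; positivity
  constructor
  · -- Q1
    have h1 : |Q1 q Y a b * fG q Y ^ 2| ≤ dv (a * b) * (C * (1 + L)) := by
      rw [q1]
      refine mu_bound hco hab (fun α β =>
        ∑ s ∈ (SF q Y).filter (fun s => s * max α β ≤ Y ∧ Nat.Coprime s (a * b)),
          1 / (Nat.totient s : ℝ)) (∑ s ∈ (SF q Y).filter (fun s => Nat.Coprime s (a * b)),
          1 / (Nat.totient s : ℝ)) _ fun α hα β hβ => ?_
      obtain ⟨d1, d2, d3, d4, -, -, -⟩ := hdiv α hα β hβ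
      rw [hsplit, abs_neg, abs_of_nonneg (Finset.sum_nonneg fun s _ => phi_inv_nonneg s)]
      exact hgap2 _ d3 d4
    rw [abs_mul, abs_of_nonneg (by positivity : 0 ≤ fG q Y ^ 2)] at h1
    have h2 : (c * Real.log Y) ^ 2 ≤ fG q Y ^ 2 := pow_le_pow_left₀ (by positivity) hGc 2
    have h3 : |Q1 q Y a b| * (c * Real.log Y) ^ 2 ≤ dv (a * b) * (C * (1 + L)) :=
      (mul_le_mul_of_nonneg_left h2 (abs_nonneg _)).trans h1
    rw [← le_div_iff₀ (by positivity)] at h3
    refine h3.trans ?_
    have h4 : dv (a * b) * (C * (1 + L)) / (c * Real.log Y) ^ 2 =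
        C / c ^ 2 * (dv (a * b) * (1 + L) / Real.log Y ^ 2) := by
      field_simp
    rw [h4]
    have h5 : (C / c ^ 2 + (2 * C + (6 * P + 8) * (1 + D)) * (2 / c + 1) / c) * dv (a * b) * (1 + L) /
        Real.log Y ^ 2 =
        C / c ^ 2 * (dv (a * b) * (1 + L) / Real.log Y ^ 2) +
        ((2 * C + (6 * P + 8) * (1 + D)) * (2 / c + 1) / c) * (dv (a * b) * (1 + L) / Real.log Y ^ 2) := by
      ring
    rw [h5]
    have h6 : 0 ≤ ((2 * C + (6 * P + 8) * (1 + D)) * (2 / c + 1) / c) *
        (dv (a * b) * (1 + L) / Real.log Y ^ 2) := by positivity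
    linarith
  · -- Q2
    have h1 : |Q2 q Y a b * fG q Y ^ 2| ≤ dv (a * b) *
        (C * (1 + L) * (1 + L) + (6 * P + 8) * (1 + D) * (1 + L) * fG q Y) := by
      rw [q2]
      refine mu_bound hco hab (fun α β =>
        ∑ s ∈ (SF q Y).filter (fun s => s * max α β ≤ Y ∧ Nat.Coprime s (a * b)),
          1 / (Nat.totient s : ℝ) * (Real.log (a * b) - Real.log (α * β) - fP q Y (β * s) -
            fP q Y (α * s) - 2 * la (α * β * s)))
        (∑ s ∈ (SF q Y).filter (fun s => Nat.Coprime s (a * b)),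
          1 / (Nat.totient s : ℝ) * (L - 2 * (Real.log Y - Real.log s))) _ fun α hα β hβ => ?_
      obtain ⟨d1, d2, d3, d4, d5, d6, d7⟩ := hdiv α hα β hβ
      have hA : |∑ s ∈ (SF q Y).filter (fun s => s * max α β ≤ Y ∧ Nat.Coprime s (a * b)),
          1 / (Nat.totient s : ℝ) * (L - 2 * (Real.log Y - Real.log s)) -
          ∑ s ∈ (SF q Y).filter (fun s => Nat.Coprime s (a * b)),
          1 / (Nat.totient s : ℝ) * (L - 2 * (Real.log Y - Real.log s))| ≤ C * (1 + L) * (1 + L) := by
        rw [hsplit, abs_neg]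
        refine (Finset.abs_sum_le_sum_abs _ _).trans ?_
        have h2 : ∑ s ∈ ((SF q Y).filter (fun s => Nat.Coprime s (a * b))).filter
            (fun s => ¬ s * max α β ≤ Y),
              |1 / (Nat.totient s : ℝ) * (L - 2 * (Real.log Y - Real.log s))| ≤
            ∑ s ∈ ((SF q Y).filter (fun s => Nat.Coprime s (a * b))).filter
            (fun s => ¬ s * max α β ≤ Y), 1 / (Nat.totient s : ℝ) * (1 + L) := by
          refine Finset.sum_le_sum fun s hs => ?_
          simp only [Finset.mem_filter, mem_SF] at hs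
          obtain ⟨⟨⟨⟨hs1, hs2⟩, hs3, hs4⟩, hs5⟩, hs6⟩ := hs
          rw [abs_mul, abs_of_nonneg (phi_inv_nonneg s)]
          refine mul_le_mul_of_nonneg_left ?_ (phi_inv_nonneg s)
          have hs0 : (0 : ℝ) < s := by exact_mod_cast hs1
          have hm0 : (0 : ℝ) < (max α β : ℕ) := by exact_mod_cast d3
          have hY0 : (0 : ℝ) < Y := by exact_mod_cast hY1
          have h3 : Real.log s ≤ Real.log Y := Real.log_le_log hs0 (by exact_mod_cast hs2)
          have h4 : Real.log Y ≤ Real.log s + Real.log (max α β : ℕ) := by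
            rw [← Real.log_mul hs0.ne' hm0.ne']
            refine Real.log_le_log hY0 ?_
            have := (not_le.1 hs6).le
            exact_mod_cast this
          rw [abs_le]
          constructor <;> linarith
        refine h2.trans ?_
        rw [← Finset.sum_mul]
        exact mul_le_mul_of_nonneg_right (hgap2 _ d3 d4) (by linarith)
      have hB : |∑ s ∈ (SF q Y).filter (fun s => s * max α β ≤ Y ∧ Nat.Coprime s (a * b)),
          1 / (Nat.totient s : ℝ) * (Real.log (a * b) - Real.log (α * β) - fP q Y (β * s) -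
            fP q Y (α * s) - 2 * la (α * β * s)) -
          ∑ s ∈ (SF q Y).filter (fun s => s * max α β ≤ Y ∧ Nat.Coprime s (a * b)),
          1 / (Nat.totient s : ℝ) * (L - 2 * (Real.log Y - Real.log s))| ≤
          (6 * P + 8) * (1 + D) * (1 + L) * fG q Y := by
        rw [← Finset.sum_sub_distrib]
        refine (Finset.abs_sum_le_sum_abs _ _).trans ?_
        have h2 : ∑ s ∈ (SF q Y).filter (fun s => s * max α β ≤ Y ∧ Nat.Coprime s (a * b)),
            |1 / (Nat.totient s : ℝ) * (Real.log (a * b) - Real.log (α * β) - fP q Y (β * s) -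
            fP q Y (α * s) - 2 * la (α * β * s)) -
            1 / (Nat.totient s : ℝ) * (L - 2 * (Real.log Y - Real.log s))| ≤
            ∑ s ∈ (SF q Y).filter (fun s => s * max α β ≤ Y ∧ Nat.Coprime s (a * b)),
            (6 * P + 8) * (1 + L) * (1 / (Nat.totient s : ℝ) + la s / (Nat.totient s : ℝ)) := by
          refine Finset.sum_le_sum fun s hs => ?_
          simp only [Finset.mem_filter, mem_SF] at hs
          obtain ⟨⟨⟨hs1, hs2⟩, hs3, hs4⟩, hs5, hs6⟩ := hs
          rw [← mul_sub, abs_mul, abs_of_nonneg (phi_inv_nonneg s)]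
          have h3 : (6 * P + 8) * (1 + L) * (1 / (Nat.totient s : ℝ) + la s / (Nat.totient s : ℝ)) =
              1 / (Nat.totient s : ℝ) * ((6 * P + 8) * (1 + L) * (1 + la s)) := by ring
          rw [h3]
          refine mul_le_mul_of_nonneg_left ?_ (phi_inv_nonneg s)
          have hs0 : (0 : ℝ) < s := by exact_mod_cast hs1
          have hα0 : (0 : ℝ) < α := by exact_mod_cast d1
          have hβ0 : (0 : ℝ) < β := by exact_mod_cast d2
          have hαY : α * s ≤ Y := by
            refine le_trans ?_ hs5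
            rw [mul_comm]
            exact Nat.mul_le_mul_left _ (le_max_left _ _)
          have hβY : β * s ≤ Y := by
            refine le_trans ?_ hs5
            rw [mul_comm]
            exact Nat.mul_le_mul_left _ (le_max_right _ _)
          have p1 := hpe Y (α * s) (Nat.mul_pos d1 hs1) hαY
          have p2 := hpe Y (β * s) (Nat.mul_pos d2 hs1) hβY
          rw [Nat.cast_mul, Real.log_mul hα0.ne' hs0.ne', abs_le] at p1
          rw [Nat.cast_mul, Real.log_mul hβ0.ne' hs0.ne', abs_le] at p2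
          have l1 := la_mul_le α s (by omega) (by omega)
          have l2 := la_mul_le β s (by omega) (by omega)
          have l3 := la_mul_le (α * β) s (Nat.mul_ne_zero (by omega) (by omega)) (by omega)
          have l4 := la_mul_le α β (by omega) (by omega)
          have l5 := la_le_log α d1
          have l6 := la_le_log β d2
          have l7 := la_nonneg s
          have l8 := la_nonneg (α * β * s)
          have l9 : la (α * s) ≤ L + la s := by linarith
          have l10 : la (β * s) ≤ L + la s := by linarith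
          have l11 : la (α * β * s) ≤ 2 * L + la s := by linarith
          have l12 : P * (1 + la (α * s)) ≤ P * (1 + L + la s) :=
            mul_le_mul_of_nonneg_left (by linarith) hP.le
          have l13 : P * (1 + la (β * s)) ≤ P * (1 + L + la s) :=
            mul_le_mul_of_nonneg_left (by linarith) hP.le
          have l21 : (1 + L) * (1 + la s) = 1 + L + la s + L * la s := by ring
          have l22 : 0 ≤ L * la s := mul_nonneg hL0 l7
          have l14 : 1 + L + la s ≤ (1 + L) * (1 + la s) := by linarith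
          have l15 : P * (1 + L + la s) ≤ P * ((1 + L) * (1 + la s)) :=
            mul_le_mul_of_nonneg_left l14 hP.le
          have l16 : (1 : ℝ) ≤ (1 + L) * (1 + la s) := by linarith
          have l17 : 0 ≤ P * ((1 + L) * (1 + la s)) := by positivity
          have e1 : Real.log ((α : ℝ) * β) = Real.log α + Real.log β :=
            Real.log_mul hα0.ne' hβ0.ne'
          have l18 : L ≤ (1 + L) * (1 + la s) := by linarith
          have l19 : la s ≤ (1 + L) * (1 + la s) := by linarith
          have l20 : (6 * P + 8) * (1 + L) * (1 + la s) = 6 * (P * ((1 + L) * (1 + la s))) +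
            8 * ((1 + L) * (1 + la s)) := by ring
          rw [e1, abs_le, l20]
          constructor
          · linarith [p1.1, p1.2, p2.1, p2.2]
          · linarith [p1.1, p1.2, p2.1, p2.2]
        refine h2.trans ?_
        rw [← Finset.mul_sum, Finset.sum_add_distrib]
        have h3 : ∑ s ∈ (SF q Y).filter (fun s => s * max α β ≤ Y ∧ Nat.Coprime s (a * b)),
            1 / (Nat.totient s : ℝ) ≤ fG q Y :=
          Finset.sum_le_sum_of_subset_of_nonneg (Finset.filter_subset _ _)
            fun s _ _ => phi_inv_nonneg s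
        have h4 : ∑ s ∈ (SF q Y).filter (fun s => s * max α β ≤ Y ∧ Nat.Coprime s (a * b)),
            la s / (Nat.totient s : ℝ) ≤ D * fG q Y :=
          (Finset.sum_le_sum_of_subset_of_nonneg (Finset.filter_subset _ _)
            fun s _ _ => div_nonneg (la_nonneg s) (Nat.cast_nonneg _)).trans (hla q Y hq hY1)
        have h5 := mul_le_mul_of_nonneg_left (add_le_add h3 h4)
          (by positivity : 0 ≤ (6 * P + 8) * (1 + L))
        refine h5.trans (le_of_eq ?_)
        ring
      have h2 := abs_add_le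
        (∑ s ∈ (SF q Y).filter (fun s => s * max α β ≤ Y ∧ Nat.Coprime s (a * b)),
          1 / (Nat.totient s : ℝ) * (Real.log (a * b) - Real.log (α * β) - fP q Y (β * s) -
            fP q Y (α * s) - 2 * la (α * β * s)) -
          ∑ s ∈ (SF q Y).filter (fun s => s * max α β ≤ Y ∧ Nat.Coprime s (a * b)),
          1 / (Nat.totient s : ℝ) * (L - 2 * (Real.log Y - Real.log s)))
        (∑ s ∈ (SF q Y).filter (fun s => s * max α β ≤ Y ∧ Nat.Coprime s (a * b)),
          1 / (Nat.totient s : ℝ) * (L - 2 * (Real.log Y - Real.log s)) -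
          ∑ s ∈ (SF q Y).filter (fun s => Nat.Coprime s (a * b)),
          1 / (Nat.totient s : ℝ) * (L - 2 * (Real.log Y - Real.log s)))
      rw [sub_add_sub_cancel] at h2
      refine h2.trans ?_
      linarith
    rw [abs_mul, abs_of_nonneg (by positivity : 0 ≤ fG q Y ^ 2)] at h1
    -- divide
    set G := fG q Y with hGdef
    have hGl : c / 2 ≤ G := by
      refine le_trans ?_ hGc
      nlinarith
    have h2 : C * (1 + L) * (1 + L) + (6 * P + 8) * (1 + D) * (1 + L) * G ≤
        (2 * C + (6 * P + 8) * (1 + D)) * (2 / c + 1) * (1 + L) ^ 2 * G := by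
      have h3 : 1 ≤ 2 / c * G := by
        rw [div_mul_eq_mul_div, le_div_iff₀ hc]
        linarith
      have h4 : C * (1 + L) * (1 + L) ≤ C * (1 + L) ^ 2 * (2 / c * G) := by
        have : 0 ≤ C * (1 + L) ^ 2 := by positivity
        nlinarith
      have h5 : (6 * P + 8) * (1 + D) * (1 + L) * G ≤ (6 * P + 8) * (1 + D) * (1 + L) ^ 2 * G := by
        refine mul_le_mul_of_nonneg_right ?_ hGpos.le
        refine mul_le_mul_of_nonneg_left ?_ (by positivity)
        nlinarith
      have h6 : (2 * C + (6 * P + 8) * (1 + D)) * (2 / c + 1) * (1 + L) ^ 2 * G =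
          C * (1 + L) ^ 2 * (2 / c * G) + (6 * P + 8) * (1 + D) * (1 + L) ^ 2 * G +
          (C * (2 / c) * (1 + L) ^ 2 * G + 2 * C * (1 + L) ^ 2 * G +
            (6 * P + 8) * (1 + D) * (2 / c) * (1 + L) ^ 2 * G) := by ring
      rw [h6]
      have h7 : 0 ≤ C * (2 / c) * (1 + L) ^ 2 * G + 2 * C * (1 + L) ^ 2 * G +
            (6 * P + 8) * (1 + D) * (2 / c) * (1 + L) ^ 2 * G := by positivity
      linarith
    have h3 : |Q2 q Y a b| * G ≤ dv (a * b) *
        ((2 * C + (6 * P + 8) * (1 + D)) * (2 / c + 1) * (1 + L) ^ 2) := by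
      have h4 := h1.trans (mul_le_mul_of_nonneg_left h2 hdv0)
      have h5 : |Q2 q Y a b| * G * G ≤ dv (a * b) *
        ((2 * C + (6 * P + 8) * (1 + D)) * (2 / c + 1) * (1 + L) ^ 2) * G := by
        calc |Q2 q Y a b| * G * G = |Q2 q Y a b| * G ^ 2 := by ring
          _ ≤ _ := h4
          _ = _ := by ring
      exact le_of_mul_le_mul_right h5 hGpos
    have h4 : |Q2 q Y a b| * (c * Real.log Y) ≤ dv (a * b) *
        ((2 * C + (6 * P + 8) * (1 + D)) * (2 / c + 1) * (1 + L) ^ 2) :=
      (mul_le_mul_of_nonneg_left hGc (abs_nonneg _)).trans h3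
    rw [← le_div_iff₀ (by positivity)] at h4
    refine h4.trans ?_
    have h5 : dv (a * b) * ((2 * C + (6 * P + 8) * (1 + D)) * (2 / c + 1) * (1 + L) ^ 2) /
        (c * Real.log Y) = ((2 * C + (6 * P + 8) * (1 + D)) * (2 / c + 1) / c) *
        (dv (a * b) * (1 + L) ^ 2 / Real.log Y) := by
      field_simp
    have h6 : (C / c ^ 2 + (2 * C + (6 * P + 8) * (1 + D)) * (2 / c + 1) / c) * dv (a * b) *
        (1 + L) ^ 2 / Real.log Y = C / c ^ 2 * (dv (a * b) * (1 + L) ^ 2 / Real.log Y) +
        ((2 * C + (6 * P + 8) * (1 + D)) * (2 / c + 1) / c) *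
        (dv (a * b) * (1 + L) ^ 2 / Real.log Y) := by ring
    rw [h5, h6]
    have h7 : 0 ≤ C / c ^ 2 * (dv (a * b) * (1 + L) ^ 2 / Real.log Y) := by positivity
    linarith

end Pool.Agent.H61.OT
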