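import Pool.Agent.H61.OT.Base
import Pool.Agent.H61.OT.PE

/-!
# (QD) the forms on the diagonal
-/

set_option autoImplicit false

open Finset Real

namespace Pool.Agent.H61.OT

open Pool.Agent.H88.OT

theorem log_eq_sum {n : ℕ} (hn : Squarefree n) :
    ∑ p ∈ n.primeFactors, Real.log p = Real.log n := by
  rw [← Real.log_prod (fun p hp => ?_)]
  · have h := Nat.prod_primeFactors_of_squarefree hn
    have h2 : (∏ p ∈ n.primeFactors, (p : ℝ)) = ((∏ p ∈ n.primeFactors, p : ℕ) : ℝ) := by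
      rw [Nat.cast_prod]
    rw [h2, h]
  · have := (Nat.prime_of_mem_primeFactors hp).pos
    positivity

open scoped Classical in
/-- the identity `∑ P(s)/φ(s) = ∑ log s/φ(s)` -/
theorem fP_sum (q Y : ℕ) :
    ∑ s ∈ SF q Y, fP q Y s / (Nat.totient s : ℝ) =
      ∑ s ∈ SF q Y, Real.log s / (Nat.totient s : ℝ) := by
  have h1 : ∑ s ∈ SF q Y, fP q Y s / (Nat.totient s : ℝ) =
      ∑ x ∈ (SF q Y).sigma (fun s => (Finset.Icc 1 (Y / s)).filter
        (fun p => p.Prime ∧ ¬ p ∣ s ∧ ¬ p ∣ q)),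
        Real.log x.2 / ((x.2 : ℝ) - 1) / (Nat.totient x.1 : ℝ) := by
    rw [Finset.sum_sigma]
    refine Finset.sum_congr rfl fun s _ => ?_
    unfold fP
    rw [Finset.sum_div]
  have h2 : ∑ s ∈ SF q Y, Real.log s / (Nat.totient s : ℝ) =
      ∑ x ∈ (SF q Y).sigma (fun s => s.primeFactors),
        Real.log x.2 / (Nat.totient x.1 : ℝ) := by
    rw [Finset.sum_sigma]
    refine Finset.sum_congr rfl fun s hs => ?_
    rw [mem_SF] at hs
    rw [← log_eq_sum hs.2.1, Finset.sum_div]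
  rw [h1, h2]
  refine Finset.sum_bij' (fun x _ => (⟨x.2 * x.1, x.2⟩ : (_ : ℕ) × ℕ))
    (fun x _ => (⟨x.1 / x.2, x.2⟩ : (_ : ℕ) × ℕ)) ?_ ?_ ?_ ?_ ?_
  · rintro ⟨s, p⟩ hx
    simp only [Finset.mem_sigma, Finset.mem_filter, Finset.mem_Icc, mem_SF] at hx
    obtain ⟨⟨⟨hs1, hs2⟩, hs3, hs4⟩, ⟨hp1, hp2⟩, hp3, hp4, hp5⟩ := hx
    simp only [Finset.mem_sigma, mem_SF, Nat.mem_primeFactors]
    have hc : Nat.Coprime p s := (Nat.Prime.coprime_iff_not_dvd hp3).2 hp4
    have hc2 : Nat.Coprime p q := (Nat.Prime.coprime_iff_not_dvd hp3).2 hp5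
    have hm : 1 ≤ p * s := Nat.mul_pos hp1 hs1
    refine ⟨⟨⟨hm, ?_⟩, ?_, ?_⟩, hp3, dvd_mul_right _ _, by omega⟩
    · exact (Nat.mul_le_mul_right s hp2).trans (Nat.div_mul_le_self Y s)
    · exact (Nat.squarefree_mul hc).2 ⟨hp3.squarefree, hs3⟩
    · exact Nat.Coprime.mul_left hc2 hs4
  · rintro ⟨s, p⟩ hx
    simp only [Finset.mem_sigma, mem_SF, Nat.mem_primeFactors] at hx
    obtain ⟨⟨⟨hs1, hs2⟩, hs3, hs4⟩, hp1, hp2, hp3⟩ := hx
    obtain ⟨m, rfl⟩ := hp2
    simp only [Finset.mem_sigma, Finset.mem_filter, Finset.mem_Icc, mem_SF]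
    have hpp := hp1.pos
    rw [Nat.mul_div_cancel_left _ hpp]
    have hm0 : 1 ≤ m := Nat.one_le_iff_ne_zero.2 fun h => by simp [h] at hs1
    have hc := Nat.coprime_of_squarefree_mul hs3
    refine ⟨⟨⟨hm0, ?_⟩, hs3.of_mul_right, Nat.Coprime.coprime_mul_left hs4⟩, ⟨hpp, ?_⟩, hp1, ?_, ?_⟩
    · exact (Nat.le_mul_of_pos_left m hpp).trans hs2
    · exact (Nat.le_div_iff_mul_le (by omega)).2 hs2
    · exact (Nat.Prime.coprime_iff_not_dvd hp1).1 hc
    · have h3 : Nat.Coprime p q := Nat.Coprime.coprime_mul_right hs4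
      exact (Nat.Prime.coprime_iff_not_dvd hp1).1 h3
  · rintro ⟨s, p⟩ hx
    simp only [Finset.mem_sigma, Finset.mem_filter, Finset.mem_Icc, mem_SF] at hx
    simp only
    rw [Nat.mul_div_cancel_left _ (by omega)]
  · rintro ⟨s, p⟩ hx
    simp only [Finset.mem_sigma, mem_SF, Nat.mem_primeFactors] at hx
    simp only
    rw [Nat.mul_div_cancel' hx.2.2.1]
  · rintro ⟨s, p⟩ hx
    simp only [Finset.mem_sigma, Finset.mem_filter, Finset.mem_Icc, mem_SF] at hx
    obtain ⟨⟨⟨hs1, hs2⟩, hs3, hs4⟩, ⟨hp1, hp2⟩, hp3, hp4, hp5⟩ := hx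
    simp only
    have hc : Nat.Coprime p s := (Nat.Prime.coprime_iff_not_dvd hp3).2 hp4
    rw [Nat.totient_mul hc, Nat.totient_prime hp3, Nat.cast_mul, Nat.cast_sub hp3.one_le,
      Nat.cast_one, div_div]

open scoped Classical in
theorem pf_QD (hQI : T_QI) (hGB : T_GB) (hPE : T_PE) : T_QD := by
  intro q hq
  obtain ⟨P, hP, hpe⟩ := hPE q hq
  obtain ⟨D, hD, hla⟩ := hGB.2.2
  refine ⟨P * (1 + D) + 2 * D, by positivity, fun Y hY => ?_⟩
  have hY1 : 1 ≤ Y := by omega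
  have hGpos := fG_pos (q := q) hY1
  obtain ⟨q1, q2⟩ := hQI q Y 1 1 hq hY1 le_rfl le_rfl (Nat.coprime_one_left 1)
    (by rw [one_mul]; exact Nat.coprime_one_left q)
  have hset : (SF q Y).filter (fun s => s * max 1 1 ≤ Y ∧ Nat.Coprime s (1 * 1)) = SF q Y := by
    refine Finset.filter_true_of_mem fun s hs => ?_
    rw [mem_SF] at hs
    simp only [max_self, mul_one]
    exact ⟨hs.1.2, Nat.coprime_one_right s⟩
  rw [Nat.divisors_one, Finset.sum_singleton, Finset.sum_singleton, hset] at q1 q2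
  have hm1 : ((ArithmeticFunction.moebius 1 : ℤ) : ℝ) = 1 := by simp
  rw [hm1, one_mul, one_mul] at q1 q2
  have hG : ∑ s ∈ SF q Y, 1 / (Nat.totient s : ℝ) = fG q Y := rfl
  rw [hG] at q1
  constructor
  · rw [eq_div_iff hGpos.ne']
    have : Q1 q Y 1 1 * fG q Y * fG q Y = 1 * fG q Y := by
      rw [one_mul]
      calc Q1 q Y 1 1 * fG q Y * fG q Y = Q1 q Y 1 1 * fG q Y ^ 2 := by ring
        _ = fG q Y := q1
    exact mul_right_cancel₀ hGpos.ne' this
  · have h1 : Q2 q Y 1 1 * fG q Y ^ 2 = -(2 * ∑ s ∈ SF q Y, fP q Y s / (Nat.totient s : ℝ) +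
        2 * ∑ s ∈ SF q Y, la s / (Nat.totient s : ℝ)) := by
      rw [q2, Finset.mul_sum, Finset.mul_sum, ← Finset.sum_add_distrib, ← Finset.sum_neg_distrib]
      refine Finset.sum_congr rfl fun s _ => ?_
      simp only [Nat.cast_one, one_mul, mul_one, Real.log_one]
      ring
    have h2 : ∑ s ∈ SF q Y, fP q Y s / (Nat.totient s : ℝ) ≤
        Real.log Y * fG q Y - ∑ s ∈ SF q Y, Real.log s / (Nat.totient s : ℝ) +
          P * (fG q Y + D * fG q Y) := by
      have h3 : ∑ s ∈ SF q Y, fP q Y s / (Nat.totient s : ℝ) ≤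
          ∑ s ∈ SF q Y, (Real.log Y * (1 / (Nat.totient s : ℝ)) -
            Real.log s / (Nat.totient s : ℝ) +
            P * (1 / (Nat.totient s : ℝ) + la s / (Nat.totient s : ℝ))) := by
        refine Finset.sum_le_sum fun s hs => ?_
        rw [mem_SF] at hs
        have h4 := (abs_le.1 (hpe Y s hs.1.1 hs.1.2)).2
        have h5 : fP q Y s ≤ Real.log Y - Real.log s + P * (1 + la s) := by linarith
        have h6 := mul_le_mul_of_nonneg_right h5 (phi_inv_nonneg s)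
        have e1 : fP q Y s / (Nat.totient s : ℝ) = fP q Y s * (1 / (Nat.totient s : ℝ)) := by ring
        rw [e1]
        refine h6.trans (le_of_eq ?_)
        ring
      refine h3.trans ?_
      rw [Finset.sum_add_distrib, Finset.sum_sub_distrib, ← Finset.mul_sum, ← Finset.mul_sum, hG,
        Finset.sum_add_distrib, hG]
      have h7 := mul_le_mul_of_nonneg_left (hla q Y hq hY1) hP.le
      rw [mul_add, mul_add]
      linarith
    have h3 := fP_sum q Y
    have h4 := hla q Y hq hY1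
    rw [le_div_iff₀ hGpos]
    have h5 : -Q2 q Y 1 1 * fG q Y * fG q Y ≤ (Real.log Y + (P * (1 + D) + 2 * D)) * fG q Y := by
      calc -Q2 q Y 1 1 * fG q Y * fG q Y = -(Q2 q Y 1 1 * fG q Y ^ 2) := by ring
        _ = 2 * ∑ s ∈ SF q Y, fP q Y s / (Nat.totient s : ℝ) +
            2 * ∑ s ∈ SF q Y, la s / (Nat.totient s : ℝ) := by rw [h1, neg_neg]
        _ ≤ _ := by
          rw [← h3] at h2
          linarith
    exact le_of_mul_le_mul_right h5 hGpos

end Pool.Agent.H61.OT
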